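import Pool.Agent.W269.BL.Stm

set_option autoImplicit false

/-!
# Project BL, part TR: resultants of two monic polynomials with the same values at the roots of `M`
-/

namespace Pool.Agent.W107.BL.TR

open Polynomial Pool.Agent.W269.BL

universe u

theorem rs_map {K : Type u} [Field K] (L M : K[X]) :
    algebraMap K (AlgebraicClosure K) (rs L M) =
      (-1) ^ (L.natDegree * M.natDegree) *
        ((algebraMap K (AlgebraicClosure K) M.leadingCoeff) ^ L.natDegree *
          ((M.map (algebraMap K (AlgebraicClosure K))).roots.map
            (L.map (algebraMap K (AlgebraicClosure K))).eval).prod) := by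
  have h1 : rs L M = (-1) ^ (L.natDegree * M.natDegree) *
      resultant M L M.natDegree L.natDegree := by
    rw [rs, resultant_comm]
  have h2 := resultant_eq_prod_eval (M.map (algebraMap K (AlgebraicClosure K)))
    (L.map (algebraMap K (AlgebraicClosure K))) L.natDegree natDegree_map_le
    (IsAlgClosed.splits _)
  rw [natDegree_map, leadingCoeff_map, resultant_map_map] at h2
  rw [h1, map_mul, h2]
  simp

theorem main : StmTR.{u} := by
  intro K _ L l M _ _ hM hP
  apply (algebraMap K (AlgebraicClosure K)).injective
  rw [map_mul, map_mul, rs_map, rs_map]
  have hroots : ((M.map (algebraMap K (AlgebraicClosure K))).roots.map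
      (L.map (algebraMap K (AlgebraicClosure K))).eval) =
      ((M.map (algebraMap K (AlgebraicClosure K))).roots.map
      (l.map (algebraMap K (AlgebraicClosure K))).eval) := by
    apply Multiset.map_congr rfl
    intro η hη
    have hη' : aeval η M = 0 := by
      have := (mem_roots'.mp hη).2
      rwa [IsRoot.def, eval_map_algebraMap] at this
    have hint : IsIntegral K η := Algebra.IsIntegral.isIntegral η
    have hd := hP _ (minpoly.irreducible hint) (minpoly.dvd K η hη')
    obtain ⟨q, hq⟩ := hd
    have h0 : aeval η (L - l) = 0 := by
      rw [hq, map_mul, minpoly.aeval, zero_mul]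
    rw [map_sub, sub_eq_zero] at h0
    rw [eval_map_algebraMap, eval_map_algebraMap, h0]
  rw [hroots]
  simp only [map_pow, map_mul, map_neg, map_one]
  ring

end Pool.Agent.W107.BL.TR
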